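import Pool.Agent.Q33.SB.Stm

/-!
# Project SB (row MP_ad201b_nt), job ADP
-/

set_option autoImplicit false

namespace Pool.Agent.Q125.SB

open Pool.Agent.Q33.SB

/-- the point with the coordinates `u`, `w` -/
noncomputable def pt {K : Type} [Field K] [Algebra ℚ K] (u w : K) (hu : u ≠ 0)
    (h : w ^ 2 = u ^ 4 + 1) : CoordRing →+* K :=
  AdjoinRoot.lift (LaurentPolynomial.eval₂ (algebraMap ℚ K) (Units.mk0 u hu)) w (by
    have h4 : LaurentPolynomial.eval₂ (algebraMap ℚ K) (Units.mk0 u hu) (LaurentPolynomial.T 4) =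
        u ^ 4 := by
      simp
    rw [Polynomial.eval₂_sub, Polynomial.eval₂_pow, Polynomial.eval₂_X, Polynomial.eval₂_C, map_add,
      map_one, h4, h, sub_self])

/-- squares of `p`-adic integers near a square -/
theorem sq_of_near {p : ℕ} [Fact p.Prime] (a b : ℤ_[p]) (h : ‖b ^ 2 - a‖ < ‖(2 : ℤ_[p]) * b‖ ^ 2) :
    ∃ z : ℤ_[p], z ^ 2 = a := by
  have hF : ∀ y : ℤ_[p], (Polynomial.X ^ 2 - Polynomial.C a : Polynomial ℤ_[p]).aeval y =
      y ^ 2 - a := by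
    intro y; simp
  have hF' : (Polynomial.X ^ 2 - Polynomial.C a : Polynomial ℤ_[p]).derivative.aeval b = 2 * b := by
    simp
    left
    norm_num
  obtain ⟨z, hz, -⟩ := hensels_lemma (F := (Polynomial.X ^ 2 - Polynomial.C a : Polynomial ℤ_[p]))
    (a := b) (by rw [hF, hF']; exact h)
  rw [hF] at hz
  exact ⟨z, sub_eq_zero.1 hz⟩

/-- an integer which is a nonzero square modulo the odd prime `p` is a square in `ℚ_p` -/
theorem sq_of_mod {p : ℕ} [Fact p.Prime] (hp2 : p ≠ 2) (a : ℕ) (ha : ¬ p ∣ a)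
    (h : IsSquare (a : ZMod p)) : ∃ z : ℚ_[p], z ^ 2 = (a : ℚ_[p]) := by
  obtain ⟨b, hb⟩ := h
  have hp : p.Prime := Fact.out
  -- lift b
  obtain ⟨b', rfl⟩ : ∃ b' : ℕ, (b' : ZMod p) = b := ⟨b.val, ZMod.natCast_zmod_val b⟩
  have hdvd : (p : ℤ) ∣ (b' : ℤ) ^ 2 - a := by
    rw [← ZMod.intCast_zmod_eq_zero_iff_dvd]
    push_cast
    rw [hb]; ring
  have hpb : ¬ p ∣ b' := by
    intro hd
    apply ha
    have h1 : (p : ℤ) ∣ (b' : ℤ) ^ 2 := (Int.natCast_dvd_natCast.2 hd).trans (Dvd.intro_left _ (by ring :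
      (b' : ℤ) * b' = b' ^ 2))
    have h2 : (p : ℤ) ∣ a := by
      have := dvd_sub h1 hdvd
      simpa using this
    exact_mod_cast h2
  obtain ⟨z, hz⟩ := sq_of_near (p := p) (a : ℤ_[p]) (b' : ℤ_[p]) (by
    have h1 : ‖(2 : ℤ_[p]) * (b' : ℤ_[p])‖ = 1 := by
      have h2 : ((2 * b' : ℕ) : ℤ_[p]) = 2 * (b' : ℤ_[p]) := by push_cast; ring
      rw [← h2, PadicInt.norm_natCast_eq_one_iff]
      rw [hp.coprime_iff_not_dvd, hp.dvd_mul]
      rintro (h | h)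
      · exact hp2 ((Nat.prime_dvd_prime_iff_eq hp Nat.prime_two).1 h)
      · exact hpb h
    rw [h1, one_pow]
    have h3 : ((b' : ℤ_[p]) ^ 2 - (a : ℤ_[p])) = (((b' : ℤ) ^ 2 - a : ℤ) : ℤ_[p]) := by push_cast; ring
    rw [h3]
    exact PadicInt.norm_intCast_lt_one_iff.2 hdvd)
  refine ⟨(z : ℚ_[p]), ?_⟩
  have := congrArg (fun t : ℤ_[p] => (t : ℚ_[p])) hz
  simpa using this

/-- the point for the six exceptional primes -/
theorem exc (p : ℕ) [Fact p.Prime] : ∃ w : ℚ_[p], w ^ 2 = ((4 : ℚ_[p]) * p) ^ 4 + 1 := by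
  have hp : p.Prime := Fact.out
  obtain ⟨z, hz⟩ := sq_of_near (p := p) ((4 * p : ℤ_[p]) ^ 4 + 1) 1 (by
    have h1 : (1 : ℤ_[p]) ^ 2 - ((4 * p : ℤ_[p]) ^ 4 + 1) = - ((4 : ℤ_[p]) * p) ^ 4 := by ring
    rw [h1, norm_neg, norm_pow, mul_one, norm_mul]
    have h2 : ‖(4 : ℤ_[p])‖ = ‖(2 : ℤ_[p])‖ ^ 2 := by
      rw [← norm_pow]; norm_num
    have h3 : ‖(p : ℤ_[p])‖ < 1 := by
      rw [PadicInt.norm_p]
      exact inv_lt_one_of_one_lt₀ (by exact_mod_cast hp.one_lt)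
    have h4 : ‖(2 : ℤ_[p])‖ ≤ 1 := PadicInt.norm_le_one _
    have h5 : 0 < ‖(2 : ℤ_[p])‖ := norm_pos_iff.2 (by norm_num)
    have h6 : 0 ≤ ‖(p : ℤ_[p])‖ := norm_nonneg _
    rw [h2, mul_pow]
    have h7 : ‖(p : ℤ_[p])‖ ^ 4 < 1 := pow_lt_one₀ h6 h3 (by norm_num)
    have h8 : (‖(2 : ℤ_[p])‖ ^ 2) ^ 4 ≤ ‖(2 : ℤ_[p])‖ ^ 2 := by
      rw [← pow_mul]
      exact pow_le_pow_of_le_one h5.le h4 (by norm_num)
    calc (‖(2 : ℤ_[p])‖ ^ 2) ^ 4 * ‖(p : ℤ_[p])‖ ^ 4 ≤ ‖(2 : ℤ_[p])‖ ^ 2 * ‖(p : ℤ_[p])‖ ^ 4 := by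
          gcongr
      _ < ‖(2 : ℤ_[p])‖ ^ 2 * 1 := by
          apply mul_lt_mul_of_pos_left h7
          positivity
      _ = _ := mul_one _)
  refine ⟨(z : ℚ_[p]), ?_⟩
  have := congrArg (fun t : ℤ_[p] => (t : ℚ_[p])) hz
  have h4 : ((4 : ℤ_[p]) : ℚ_[p]) = 4 := rfl
  simpa [h4] using this

/-- one of the three numbers is a square mod `p` -/
theorem three {p : ℕ} [Fact p.Prime] :
    IsSquare ((17 : ℕ) : ZMod p) ∨ IsSquare ((1921 : ℕ) : ZMod p) ∨ IsSquare ((32657 : ℕ) : ZMod p) := by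
  by_cases h1 : IsSquare ((17 : ℕ) : ZMod p)
  · exact Or.inl h1
  by_cases h2 : IsSquare ((1921 : ℕ) : ZMod p)
  · exact Or.inr (Or.inl h2)
  right; right
  have e1 := quadraticChar_neg_one_iff_not_isSquare.2 h1
  have e2 := quadraticChar_neg_one_iff_not_isSquare.2 h2
  have e3 : quadraticChar (ZMod p) ((32657 : ℕ) : ZMod p) = 1 := by
    have : ((32657 : ℕ) : ZMod p) = ((17 : ℕ) : ZMod p) * ((1921 : ℕ) : ZMod p) := by
      rw [← Nat.cast_mul]
    rw [this, map_mul, e1, e2]; norm_num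
  by_contra h3
  rw [quadraticChar_neg_one_iff_not_isSquare.2 h3] at e3
  norm_num at e3

/-- the norm of a quotient of natural numbers prime to `p` -/
theorem norm_quot {p : ℕ} [Fact p.Prime] (a b : ℕ) (ha : ¬ p ∣ a) (hb : ¬ p ∣ b) :
    ‖(a : ℚ_[p]) / b‖ = 1 := by
  have hp : p.Prime := Fact.out
  rw [norm_div, Padic.norm_natCast_eq_one_iff.2 ((hp.coprime_iff_not_dvd).2 ha),
    Padic.norm_natCast_eq_one_iff.2 ((hp.coprime_iff_not_dvd).2 hb), div_one]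

theorem exists_pt (p : ℕ) [Fact p.Prime] : ∃ u w : ℚ_[p], u ≠ 0 ∧ w ^ 2 = u ^ 4 + 1 ∧
    (p ∉ ({2, 3, 5, 13, 17, 113} : Finset ℕ) → ‖u‖ = 1 ∧ ‖w‖ ≤ 1) := by
  have hp : p.Prime := Fact.out
  by_cases hpE : p ∈ ({2, 3, 5, 13, 17, 113} : Finset ℕ)
  · obtain ⟨w, hw⟩ := exc p
    refine ⟨4 * p, w, ?_, hw, fun h => (h hpE).elim⟩
    have : (p : ℚ_[p]) ≠ 0 := by exact_mod_cast hp.ne_zero
    exact mul_ne_zero (by norm_num) this
  · have hw1 : ∀ u w : ℚ_[p], ‖u‖ = 1 → w ^ 2 = u ^ 4 + 1 → ‖w‖ ≤ 1 := by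
      intro u w hu hw
      have h1 : ‖w‖ ^ 2 ≤ 1 := by
        rw [← norm_pow, hw]
        refine (Padic.nonarchimedean _ _).trans ?_
        rw [norm_pow, hu]; norm_num
      by_contra hcon
      push Not at hcon
      nlinarith
    have hnd : ∀ n : ℕ, (∀ q ∈ n.primeFactors, q ∈ ({2, 3, 5, 13, 17, 113} : Finset ℕ)) → n ≠ 0 →
        ¬ p ∣ n := by
      intro n hn hn0 hd
      exact hpE (hn p (Nat.mem_primeFactors.2 ⟨hp, hd, hn0⟩))
    simp only [Finset.mem_insert, Finset.mem_singleton, not_or] at hpE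
    obtain ⟨h2, h3, h5, h13, h17, h113⟩ := hpE
    have n2 : ¬ p ∣ 2 := fun h => h2 ((Nat.prime_dvd_prime_iff_eq hp Nat.prime_two).1 h)
    have n3 : ¬ p ∣ 3 := fun h => h3 ((Nat.prime_dvd_prime_iff_eq hp Nat.prime_three).1 h)
    have n5 : ¬ p ∣ 5 := fun h => h5 ((Nat.prime_dvd_prime_iff_eq hp Nat.prime_five).1 h)
    have n13 : ¬ p ∣ 13 := fun h => h13 ((Nat.prime_dvd_prime_iff_eq hp (by norm_num)).1 h)
    have n17 : ¬ p ∣ 17 := fun h => h17 ((Nat.prime_dvd_prime_iff_eq hp (by norm_num)).1 h)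
    have n113 : ¬ p ∣ 113 := fun h => h113 ((Nat.prime_dvd_prime_iff_eq hp (by norm_num)).1 h)
    have n1 : ¬ p ∣ 1 := fun h => hp.one_lt.ne' (Nat.dvd_one.1 h)
    have n6 : ¬ p ∣ 6 := by
      rw [show (6 : ℕ) = 2 * 3 from rfl, hp.dvd_mul]; tauto
    have n8 : ¬ p ∣ 8 := by
      rw [show (8 : ℕ) = 2 ^ 3 from rfl]; exact fun h => n2 (hp.dvd_of_dvd_pow h)
    have n1921 : ¬ p ∣ 1921 := by
      rw [show (1921 : ℕ) = 17 * 113 from rfl, hp.dvd_mul]; tauto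
    have n32657 : ¬ p ∣ 32657 := by
      rw [show (32657 : ℕ) = 17 * 1921 from rfl, hp.dvd_mul]; tauto
    rcases three (p := p) with h | h | h
    · obtain ⟨z, hz⟩ := sq_of_mod h2 17 n17 h
      have hu := norm_quot (p := p) 1 2 n1 n2
      have hw : (z / 4) ^ 2 = (((1 : ℕ) : ℚ_[p]) / ((2 : ℕ) : ℚ_[p])) ^ 4 + 1 := by
        rw [div_pow, hz]; push_cast; norm_num
      exact ⟨_, _, by rw [← norm_pos_iff, hu]; exact one_pos, hw, fun _ => ⟨hu, hw1 _ _ hu hw⟩⟩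
    · obtain ⟨z, hz⟩ := sq_of_mod h2 1921 n1921 h
      have hu := norm_quot (p := p) 5 6 n5 n6
      have hw : (z / 36) ^ 2 = (((5 : ℕ) : ℚ_[p]) / ((6 : ℕ) : ℚ_[p])) ^ 4 + 1 := by
        rw [div_pow, hz]; push_cast; norm_num
      exact ⟨_, _, by rw [← norm_pos_iff, hu]; exact one_pos, hw, fun _ => ⟨hu, hw1 _ _ hu hw⟩⟩
    · obtain ⟨z, hz⟩ := sq_of_mod h2 32657 n32657 h
      have hu := norm_quot (p := p) 8 13 n8 n13
      have hw : (z / 169) ^ 2 = (((8 : ℕ) : ℚ_[p]) / ((13 : ℕ) : ℚ_[p])) ^ 4 + 1 := by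
        rw [div_pow, hz]; push_cast; norm_num
      exact ⟨_, _, by rw [← norm_pos_iff, hu]; exact one_pos, hw, fun _ => ⟨hu, hw1 _ _ hu hw⟩⟩

/-- the coordinates of the point at `p` -/
noncomputable def pp (p : ℕ) [Fact p.Prime] : CoordRing →+* ℚ_[p] :=
  pt (exists_pt p).choose (exists_pt p).choose_spec.choose (exists_pt p).choose_spec.choose_spec.1
    (exists_pt p).choose_spec.choose_spec.2.1

theorem pt_w {K : Type} [Field K] [Algebra ℚ K] (u w : K) (hu : u ≠ 0)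
    (h : w ^ 2 = u ^ 4 + 1) : pt u w hu h (AdjoinRoot.root _) = w := by
  rw [pt, AdjoinRoot.lift_root]

theorem pt_of {K : Type} [Field K] [Algebra ℚ K] (u w : K) (hu : u ≠ 0)
    (h : w ^ 2 = u ^ 4 + 1) (r : LaurentPolynomial ℚ) : pt u w hu h (AdjoinRoot.of _ r) =
      LaurentPolynomial.eval₂ (algebraMap ℚ K) (Units.mk0 u hu) r := by
  rw [pt, AdjoinRoot.lift_of]

/-- the functions which are almost everywhere integral -/
def Int (r : CoordRing) : Prop := {p : ℕ | ∃ _ : Fact p.Prime, ¬ ‖pp p r‖ ≤ 1}.Finite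

theorem int_of {r : CoordRing} (s : Finset ℕ)
    (h : ∀ (p : ℕ) [Fact p.Prime], p ∉ s → ‖pp p r‖ ≤ 1) : Int r := by
  apply Set.Finite.subset s.finite_toSet
  rintro p ⟨hp, hpr⟩
  by_contra hps
  exact hpr (h p hps)

theorem int_add {r r' : CoordRing} (h : Int r) (h' : Int r') : Int (r + r') := by
  apply Set.Finite.subset (h.union h')
  rintro p ⟨hp, hpr⟩
  by_contra hcon
  simp only [Set.mem_union, Set.mem_ofPred_eq, not_or, not_exists, not_not] at hcon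
  apply hpr
  rw [map_add]
  exact (Padic.nonarchimedean _ _).trans (max_le (hcon.1 hp) (hcon.2 hp))

theorem int_mul {r r' : CoordRing} (h : Int r) (h' : Int r') : Int (r * r') := by
  apply Set.Finite.subset (h.union h')
  rintro p ⟨hp, hpr⟩
  by_contra hcon
  simp only [Set.mem_union, Set.mem_ofPred_eq, not_or, not_exists, not_not] at hcon
  apply hpr
  rw [map_mul, norm_mul]
  exact mul_le_one₀ (hcon.1 hp) (norm_nonneg _) (hcon.2 hp)

theorem int_pow {r : CoordRing} (h : Int r) (n : ℕ) : Int (r ^ n) := by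
  induction n with
  | zero =>
    apply int_of ∅
    intro p hp _
    rw [pow_zero, map_one, norm_one]
  | succ n ih => rw [pow_succ]; exact int_mul ih h

theorem int_C (a : ℚ) : Int (AdjoinRoot.of _ (LaurentPolynomial.C a)) := by
  apply int_of a.den.primeFactors
  intro p hp hpa
  rw [pp, pt_of, LaurentPolynomial.eval₂_C]
  have : ¬ p ∣ a.den := fun h => hpa (Nat.mem_primeFactors.2 ⟨hp.out, h, a.den_ne_zero⟩)
  have h1 := Padic.norm_rat_le_one this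
  rwa [eq_ratCast]

theorem int_T (n : ℤ) : Int (AdjoinRoot.of _ (LaurentPolynomial.T n)) := by
  apply int_of {2, 3, 5, 13, 17, 113}
  intro p hp hpa
  rw [pp, pt_of, LaurentPolynomial.eval₂_T]
  have h1 := ((exists_pt p).choose_spec.choose_spec.2.2 hpa).1
  rw [Units.val_zpow_eq_zpow_val, Units.val_mk0, norm_zpow, h1, one_zpow]

theorem int_all (r : CoordRing) : Int r := by
  have hL : ∀ a : LaurentPolynomial ℚ, Int (AdjoinRoot.of _ a) := by
    intro a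
    induction a using LaurentPolynomial.induction_on' with
    | add p q hp hq => rw [map_add]; exact int_add hp hq
    | C_mul_T n a => rw [map_mul]; exact int_mul (int_C a) (int_T n)
  induction r using AdjoinRoot.induction_on with
  | ih f =>
    induction f using Polynomial.induction_on' with
    | add p q hp hq => rw [map_add]; exact int_add hp hq
    | monomial n a =>
      rw [← Polynomial.C_mul_X_pow_eq_monomial, map_mul, map_pow, AdjoinRoot.mk_C, AdjoinRoot.mk_X]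
      refine int_mul (hL a) (int_pow ?_ n)
      apply int_of {2, 3, 5, 13, 17, 113}
      intro p hp hpa
      rw [pp, pt_w]
      exact ((exists_pt p).choose_spec.choose_spec.2.2 hpa).2

theorem t_ADP : S_ADP := by
  refine ⟨⟨fun p _ => pp p, pt (1 / 2 : ℝ) (Real.sqrt (17 / 16)) (by norm_num) ?_, int_all⟩⟩
  rw [Real.sq_sqrt (by norm_num)]; norm_num

end Pool.Agent.Q125.SB
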