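import Pool.Agent.Q33.SB.Stm

/-!
# Project SB (row MP_ad201b_nt), job ARI
-/

set_option autoImplicit false

namespace Pool.Agent.Q125.SB

open Pool.Agent.Q33.SB

theorem sq_ne_two : ∀ a : ZMod 3, a ^ 2 ≠ 2 := by decide

/-- the square root of two is not in `ℚ_3` -/
theorem not_two [Fact (Nat.Prime 3)] (z : ℚ_[3]) (hz : z ^ 2 = 2) : False := by
  have h2 : ‖(2 : ℚ_[3])‖ = 1 := by
    have := (Padic.norm_natCast_eq_one_iff (p := 3) (n := 2)).2 (by norm_num)
    exact_mod_cast this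
  have hz1 : ‖z‖ ^ 2 = 1 := by rw [← norm_pow, hz, h2]
  have hz2 : ‖z‖ ≤ 1 := by nlinarith [norm_nonneg z]
  let y : ℤ_[3] := ⟨z, hz2⟩
  have hy : y ^ 2 = 2 := by
    apply Subtype.ext
    change z ^ 2 = ((2 : ℤ_[3]) : ℚ_[3])
    rw [hz]
    rfl
  have h3 : (PadicInt.toZMod y) ^ 2 = (2 : ZMod 3) := by
    rw [← map_pow, hy]
    exact map_ofNat (PadicInt.toZMod (p := 3)) 2
  exact sq_ne_two _ h3

/-- an integer which is a square in `ℚ_p` for all odd `p` is a square or twice a square -/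
theorem square_or (M : ℕ) (hM : M ≠ 0)
    (h : ∀ (p : ℕ) [Fact p.Prime], p ≠ 2 → ∃ z : ℚ_[p], z ^ 2 = (M : ℚ_[p])) :
    ∃ a : ℕ, M = a ^ 2 ∨ M = 2 * a ^ 2 := by
  obtain ⟨b, a, hab, hb⟩ := Nat.sq_mul_squarefree M
  have ha0 : a ≠ 0 := by rintro rfl; simp at hab; exact hM hab.symm
  have key : ∀ p : ℕ, p.Prime → p ∣ b → p = 2 := by
    intro p hp hpb
    by_contra hp2
    have : Fact p.Prime := ⟨hp⟩
    obtain ⟨z, hz⟩ := h p hp2
    have ha0' : (a : ℚ_[p]) ≠ 0 := by exact_mod_cast ha0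
    have hb0 : b ≠ 0 := hb.ne_zero
    have hzb : (z / a) ^ 2 = (b : ℚ_[p]) := by
      rw [div_pow, hz, ← hab]; push_cast; field_simp
    have hz0 : z / a ≠ 0 := by
      intro h0
      rw [h0] at hzb
      have : (b : ℚ_[p]) = 0 := by rw [← hzb]; ring
      exact hb0 (by exact_mod_cast this)
    have hv : ((b : ℚ_[p])).valuation = 2 * (z / a).valuation := by
      rw [← hzb, Padic.valuation_pow]; norm_num
    rw [Padic.valuation_natCast] at hv
    have h1 : padicValNat p b = 1 := by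
      obtain ⟨b', rfl⟩ := hpb
      have hb' : b' ≠ 0 := by rintro rfl; simp at hb0
      rw [padicValNat.mul hp.ne_zero hb', padicValNat_self,
        padicValNat.eq_zero_of_not_dvd]
      intro hd
      obtain ⟨b'', rfl⟩ := hd
      exact hp.not_isUnit (hb p ⟨b'', by ring⟩)
    rw [h1] at hv
    omega
  have hb12 : b = 1 ∨ b = 2 := by
    by_cases h2 : 2 ∣ b
    · right
      obtain ⟨b', rfl⟩ := h2
      have : b' = 1 := by
        by_contra hb'
        obtain ⟨q, hq, hqb⟩ := Nat.exists_prime_and_dvd hb'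
        have hq2 := key q hq (hqb.mul_left 2)
        subst hq2
        obtain ⟨b'', rfl⟩ := hqb
        exact Nat.prime_two.not_isUnit (hb 2 ⟨b'', by ring⟩)
      rw [this]
    · left
      by_contra hb'
      obtain ⟨q, hq, hqb⟩ := Nat.exists_prime_and_dvd hb'
      have hq2 := key q hq hqb
      subst hq2
      exact h2 hqb
  refine ⟨a, ?_⟩
  rcases hb12 with rfl | rfl
  · left; rw [← hab]; ring
  · right; rw [← hab]; ring

/-- the rational number `e` with the given local absolute values -/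
theorem exists_e (c : ∀ (p : ℕ) [Fact p.Prime], ℚ_[p]) (hc : ∀ (p : ℕ) [Fact p.Prime], c p ≠ 0)
    (hfin : {p : ℕ | ∃ _ : Fact p.Prime, ‖c p‖ ≠ 1}.Finite) :
    ∃ e : ℚ, 0 < e ∧ ∀ (p : ℕ) [Fact p.Prime], ‖(e : ℚ_[p])‖ = ‖c p‖ := by
  classical
  let v : ℕ → ℤ := fun q => if h : q.Prime then (haveI : Fact q.Prime := ⟨h⟩; (c q).valuation) else 0
  refine ⟨∏ q ∈ hfin.toFinset, (q : ℚ) ^ v q, ?_, ?_⟩
  · apply Finset.prod_pos
    intro q hq
    rw [Set.Finite.mem_toFinset] at hq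
    obtain ⟨h, -⟩ := hq
    have := h.out.pos
    positivity
  · intro p hp
    have hv : v p = (c p).valuation := by
      simp only [v]
      rw [dif_pos hp.out]
    have hcast : (((∏ q ∈ hfin.toFinset, (q : ℚ) ^ v q : ℚ)) : ℚ_[p]) =
        ∏ q ∈ hfin.toFinset, (q : ℚ_[p]) ^ v q := by
      push_cast
      rfl
    rw [hcast, norm_prod]
    have hq1 : ∀ q ∈ hfin.toFinset, q ≠ p → ‖(q : ℚ_[p]) ^ v q‖ = 1 := by
      intro q hq hqp
      rw [Set.Finite.mem_toFinset] at hq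
      obtain ⟨h, -⟩ := hq
      rw [norm_zpow]
      have : ‖(q : ℚ_[p])‖ = 1 := by
        rw [Padic.norm_natCast_eq_one_iff]
        exact (Nat.coprime_primes hp.out h.out).2 (Ne.symm hqp)
      rw [this, one_zpow]
    by_cases hpF : p ∈ hfin.toFinset
    · rw [Finset.prod_eq_single_of_mem p hpF (fun q hq hqp => hq1 q hq hqp), norm_zpow,
        Padic.norm_p, hv, Padic.norm_eq_zpow_neg_valuation (hc p), zpow_neg, inv_zpow]
    · rw [Finset.prod_eq_one (fun q hq => hq1 q hq (by rintro rfl; exact hpF hq))]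
      rw [Set.Finite.mem_toFinset] at hpF
      by_contra hne
      exact hpF ⟨hp, fun h => hne h.symm⟩

theorem t_ARI : S_ARI := by
  intro c r hc hr hfin hw
  obtain ⟨e0, he0, hnorm⟩ := exists_e c hc hfin
  obtain ⟨e, he, hre, hen⟩ : ∃ e : ℚ, e ≠ 0 ∧ 0 < r / e ∧ ∀ (p : ℕ) [Fact p.Prime],
      ‖(e : ℚ_[p])‖ = ‖c p‖ := by
    rcases lt_or_gt_of_ne hr with h | h
    · refine ⟨-e0, neg_ne_zero.2 he0.ne', ?_, ?_⟩
      · apply div_pos_of_neg_of_neg h
        push_cast
        have : (0 : ℝ) < (e0 : ℝ) := by exact_mod_cast he0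
        linarith
      · intro p hp
        push_cast
        rw [norm_neg]
        exact hnorm p
    · refine ⟨e0, he0.ne', ?_, hnorm⟩
      have : (0 : ℝ) < (e0 : ℝ) := by exact_mod_cast he0
      positivity
  refine ⟨e, he, hre, ?_, ?_⟩
  · intro p hp
    rw [norm_div, hen p, div_self]
    exact norm_ne_zero_iff.2 (hc p)
  · by_contra hcon
    push Not at hcon
    have hce : ∀ (p : ℕ) [Fact p.Prime], p ≠ 2 → c p = (e : ℚ_[p]) := by
      intro p hp hp2
      have h0 : ‖c p / e - 1‖ = 0 := by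
        by_contra hne
        have hpos : 0 < ‖c p / (e : ℚ_[p]) - 1‖ := lt_of_le_of_ne (norm_nonneg _) (Ne.symm hne)
        obtain ⟨n, hn⟩ := exists_pow_lt_of_lt_one hpos
          (show ((p : ℝ)⁻¹) < 1 from inv_lt_one_of_one_lt₀ (by exact_mod_cast hp.out.one_lt))
        have h1 := hcon p (n + 1) hp hp2 (by omega)
        have h2 : (p : ℝ) ^ (-((n + 1 : ℕ) : ℤ)) ≤ ((p : ℝ)⁻¹) ^ n := by
          rw [zpow_neg, zpow_natCast, inv_pow]
          have hp1 : (1 : ℝ) ≤ p := by exact_mod_cast hp.out.one_lt.le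
          have hp0 : (0 : ℝ) < p := by linarith
          apply inv_anti₀ (by positivity)
          exact pow_le_pow_right₀ hp1 (by omega)
        linarith
      rw [norm_eq_zero, sub_eq_zero] at h0
      have he' : (e : ℚ_[p]) ≠ 0 := by exact_mod_cast he
      field_simp at h0
      exact h0
    -- the integer
    have hnum : e.num ≠ 0 := Rat.num_ne_zero.2 he
    set M : ℕ := e.num.natAbs ^ 4 + e.den ^ 4 with hMdef
    have hM0 : M ≠ 0 := by
      have := e.den_pos
      positivity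
    have hMint : ((M : ℕ) : ℤ) = e.num ^ 4 + (e.den : ℤ) ^ 4 := by
      rw [hMdef]; push_cast
      rw [show (|e.num|) ^ 4 = e.num ^ 4 from by
        rw [show (4 : ℕ) = 2 * 2 from rfl, pow_mul, sq_abs, ← pow_mul]]
    have hsq : ∀ (p : ℕ) [Fact p.Prime], p ≠ 2 → ∃ z : ℚ_[p], z ^ 2 = (M : ℚ_[p]) := by
      intro p hp hp2
      obtain ⟨w, hw'⟩ := hw p
      rw [hce p hp2] at hw'
      refine ⟨w * (e.den : ℚ_[p]) ^ 2, ?_⟩
      have hM1 : ((M : ℕ) : ℚ_[p]) = (e.num : ℚ_[p]) ^ 4 + (e.den : ℚ_[p]) ^ 4 := by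
        have := congrArg (fun t : ℤ => (t : ℚ_[p])) hMint
        simpa using this
      rw [hM1, mul_pow, hw']
      have hd0 : (e.den : ℚ_[p]) ≠ 0 := by exact_mod_cast e.den_ne_zero
      have he2 : (e : ℚ_[p]) * (e.den : ℚ_[p]) = (e.num : ℚ_[p]) := by
        have := Rat.mul_den_eq_num e
        exact_mod_cast congrArg (fun t : ℚ => (t : ℚ_[p])) this
      rw [← he2]
      ring
    obtain ⟨a, ha | ha⟩ := square_or M hM0 hsq
    · have h1 : e.num ^ 4 + (e.den : ℤ) ^ 4 = (a : ℤ) ^ 2 := by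
        rw [← hMint, ha]; push_cast; ring
      exact not_fermat_42 hnum (by exact_mod_cast e.den_ne_zero) h1
    · have : Fact (Nat.Prime 3) := ⟨Nat.prime_three⟩
      obtain ⟨z, hz⟩ := hsq 3 (by norm_num)
      have ha0 : a ≠ 0 := by rintro rfl; simp at ha; exact hM0 ha
      have ha0' : (a : ℚ_[3]) ≠ 0 := by exact_mod_cast ha0
      apply not_two (z / a)
      rw [div_pow, hz, ha]
      push_cast
      field_simp

end Pool.Agent.Q125.SB
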